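import Mathlib

set_option autoImplicit false

namespace Pool.Agent.Results.MP_d80673_al.NoDiscriminator

/-- algebras with two binary operations -/
structure Alg where
  /-- carrier -/
  S : Type
  /-- implication -/
  imp : S → S → S
  /-- composition -/
  comp : S → S → S

/-- weakening relations on a poset -/
def IsWeak {X : Type} [PartialOrder X] (R : X → X → Prop) : Prop :=
  ∀ x' x y y', x' ≤ x → R x y → y ≤ y' → R x' y'

/-- the full algebra of weakening relations -/
def W (X : Type) [PartialOrder X] : Alg where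
  S := {R : X → X → Prop // IsWeak R}
  imp R T := ⟨fun x y => ∀ x' y', x' ≤ x → y ≤ y' → R.1 x' y' → T.1 x' y',
    fun _ _ _ _ h1 h h2 x' y' h3 h4 => h x' y' (h3.trans h1) (h2.trans h4)⟩
  comp R T := ⟨fun x z => ∃ y, R.1 x y ∧ T.1 y z,
    fun _ _ _ _ h1 ⟨y, h, h'⟩ h2 => ⟨y, R.2 _ _ _ _ h1 h le_rfl, T.2 _ _ _ _ le_rfl h' h2⟩⟩

/-- isomorphic to a subalgebra of a product of full algebras -/
def InK (A : Alg) : Prop :=
  ∃ (I : Type) (X : I → Type) (_ : ∀ i, PartialOrder (X i)) (h : A.S → ∀ i, (W (X i)).S),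
    Function.Injective h ∧
    (∀ a b i, h (A.imp a b) i = (W (X i)).imp (h a i) (h b i)) ∧
    (∀ a b i, h (A.comp a b) i = (W (X i)).comp (h a i) (h b i))

/-- terms -/
inductive Tm (V : Type) : Type
  | var : V → Tm V
  | imp : Tm V → Tm V → Tm V
  | comp : Tm V → Tm V → Tm V

/-- value of a term -/
def Tm.eval {V : Type} (A : Alg) (v : V → A.S) : Tm V → A.S
  | .var i => v i
  | .imp s t => A.imp (s.eval A v) (t.eval A v)
  | .comp s t => A.comp (s.eval A v) (t.eval A v)

/-- substitution -/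
def Tm.sub {V U : Type} (f : V → U) : Tm V → Tm U
  | .var i => .var (f i)
  | .imp s t => .imp (s.sub f) (t.sub f)
  | .comp s t => .comp (s.sub f) (t.sub f)

theorem eval_sub {V U : Type} (f : V → U) (A : Alg) (v : U → A.S) (t : Tm V) :
    (t.sub f).eval A v = t.eval A (v ∘ f) := by
  induction t with
  | var i => rfl
  | imp s t h1 h2 => simp only [Tm.sub, Tm.eval, h1, h2]
  | comp s t h1 h2 => simp only [Tm.sub, Tm.eval, h1, h2]

/-- discrete order on three points -/
def D : Type := Fin 3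

instance : PartialOrder D where
  le a b := a = b
  le_refl _ := rfl
  le_trans _ _ _ := Eq.trans
  le_antisymm _ _ h _ := h

/-- top -/
def one : (W D).S := ⟨fun _ _ => True, fun _ _ _ _ _ _ _ => trivial⟩

/-- diversity -/
def dv : (W D).S := ⟨fun a b => a ≠ b, fun _ _ _ _ h1 h h2 => by
  change _ = _ at h1 h2
  rw [h1, ← h2]
  exact h⟩

/-- coding -/
def cd (b : Bool) : (W D).S := if b then one else dv

theorem cd_imp (a b : Bool) : (W D).imp (cd a) (cd b) = cd (!a || b) := by
  refine Subtype.ext (funext fun x => funext fun y => propext ?_)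
  change (∀ x' y', x' = x → y = y' → (cd a).1 x' y' → (cd b).1 x' y') ↔ _
  cases a <;> cases b <;> simp [cd, one, dv]

theorem cd_comp (a b : Bool) : (W D).comp (cd a) (cd b) = cd true := by
  refine Subtype.ext (funext fun x => funext fun y => propext ?_)
  change (∃ z, (cd a).1 x z ∧ (cd b).1 z y) ↔ True
  have : ∀ x y : Fin 3, ∃ z : Fin 3, x ≠ z ∧ z ≠ y := by decide
  obtain ⟨z, h1, h2⟩ := this x y
  refine ⟨fun _ => trivial, fun _ => ⟨z, ?_, ?_⟩⟩
  · cases a
    · exact h1
    · trivial
  · cases b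
    · exact h2
    · trivial

theorem key (t : Tm (Fin 3)) : ∃ a b : Bool, (a || b) = true ∧
    t.eval (W D) ![dv, one, one] = cd a ∧ t.eval (W D) ![one, one, dv] = cd b := by
  induction t with
  | var i =>
    fin_cases i
    · exact ⟨false, true, rfl, rfl, rfl⟩
    · exact ⟨true, true, rfl, rfl, rfl⟩
    · exact ⟨true, false, rfl, rfl, rfl⟩
  | imp s t h1 h2 =>
    obtain ⟨a, b, -, e1, e2⟩ := h1
    obtain ⟨c, d, h, e3, e4⟩ := h2
    refine ⟨!a || c, !b || d, ?_, ?_, ?_⟩
    · revert a b c d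
      intro a b _ _ c d h _ _
      cases a <;> cases b <;> cases c <;> cases d <;> simp at h ⊢
    · simp only [Tm.eval, e1, e3, cd_imp]
    · simp only [Tm.eval, e2, e4, cd_imp]
  | comp s t h1 h2 =>
    obtain ⟨a, b, -, e1, e2⟩ := h1
    obtain ⟨c, d, -, e3, e4⟩ := h2
    exact ⟨true, true, rfl, by simp only [Tm.eval, e1, e3, cd_comp],
      by simp only [Tm.eval, e2, e4, cd_comp]⟩

theorem ne : dv ≠ one := fun h => by
  have : dv.1 (0 : Fin 3) (0 : Fin 3) := by
    rw [h]
    trivial
  exact this rfl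

/-- The class is not contained in a variety generated by algebras with a common discriminator. -/
theorem result (d : Tm (Fin 3)) (C : Alg → Prop)
    (hC : ∀ B, C B → ∀ a b c : B.S,
      (a = b → d.eval B ![a, b, c] = c) ∧ (a ≠ b → d.eval B ![a, b, c] = a)) :
    ∃ A, InK A ∧ ∃ s t : Tm ℕ, (∀ B, C B → ∀ v, s.eval B v = t.eval B v) ∧
      ∃ v, s.eval A v ≠ t.eval A v := by
  refine ⟨W D, ⟨Unit, fun _ => D, inferInstance, fun a _ => a,
    fun a b h => congrFun h (), fun _ _ _ => rfl, fun _ _ _ => rfl⟩, ?_⟩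
  obtain ⟨a, b, h, e1, e2⟩ := key d
  cases a
  · cases b
    · simp at h
    · refine ⟨d.sub ![1, 1, 0], .var 0, fun B hB v => ?_, fun i => if i = 0 then dv else one, ?_⟩
      · rw [eval_sub, show v ∘ ![1, 1, 0] = ![v 1, v 1, v 0] by
          funext i; fin_cases i <;> rfl]
        exact (hC B hB _ _ _).1 rfl
      · rw [eval_sub, show (fun i : ℕ => if i = 0 then dv else one) ∘ ![1, 1, 0] =
          ![one, one, dv] by funext i; fin_cases i <;> rfl, e2]
        exact ne.symm
  · refine ⟨d.sub ![0, 1, 1], .var 0, fun B hB v => ?_, fun i => if i = 0 then dv else one, ?_⟩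
    · rw [eval_sub, show v ∘ ![0, 1, 1] = ![v 0, v 1, v 1] by
        funext i; fin_cases i <;> rfl]
      by_cases hv : v 0 = v 1
      · exact ((hC B hB _ _ _).1 hv).trans hv.symm
      · exact (hC B hB _ _ _).2 hv
    · rw [eval_sub, show (fun i : ℕ => if i = 0 then dv else one) ∘ ![0, 1, 1] =
        ![dv, one, one] by funext i; fin_cases i <;> rfl, e1]
      exact ne.symm

end Pool.Agent.Results.MP_d80673_al.NoDiscriminator
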