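import Mathlib

set_option autoImplicit false

namespace Pool.Agent.Results.MP_d80673_al.NotVariety

universe u

/-- Algebras with two binary operations. -/
structure Alg where
  S : Type u
  imp : S → S → S
  comp : S → S → S

/-- Weakening relations on a poset. -/
def IsWeak {X : Type u} [PartialOrder X] (R : X → X → Prop) : Prop :=
  ∀ x' x y y', x' ≤ x → R x y → y ≤ y' → R x' y'

/-- The full algebra of weakening relations. -/
def W (X : Type u) [PartialOrder X] : Alg where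
  S := {R : X → X → Prop // IsWeak R}
  imp R T := ⟨fun x y => ∀ x' y', x' ≤ x → y ≤ y' → R.1 x' y' → T.1 x' y',
    fun _ _ _ _ h1 h h2 x' y' h3 h4 => h x' y' (h3.trans h1) (h2.trans h4)⟩
  comp R T := ⟨fun x z => ∃ y, R.1 x y ∧ T.1 y z,
    fun _ _ _ _ h1 ⟨y, h, h'⟩ h2 => ⟨y, R.2 _ _ _ _ h1 h le_rfl, T.2 _ _ _ _ le_rfl h' h2⟩⟩

/-- Isomorphic to a subalgebra of a product of full algebras. -/
def InK (A : Alg.{0}) : Prop :=
  ∃ (I : Type u) (X : I → Type u) (_ : ∀ i, PartialOrder (X i)) (h : A.S → ∀ i, (W (X i)).S),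
    Function.Injective h ∧
    (∀ a b i, h (A.imp a b) i = (W (X i)).imp (h a i) (h b i)) ∧
    (∀ a b i, h (A.comp a b) i = (W (X i)).comp (h a i) (h b i))

def IsHom (B A : Alg.{0}) (f : B.S → A.S) : Prop :=
  (∀ a b, f (B.imp a b) = A.imp (f a) (f b)) ∧ ∀ a b, f (B.comp a b) = A.comp (f a) (f b)

theorem quasi {A : Alg.{0}} (hA : InK.{u} A) (a a₁ a₂ c : A.S)
    (h1 : A.comp a (A.imp c c) = A.imp c c)
    (h2 : A.imp (A.comp a₁ a) (A.imp (A.comp a₂ a) c) = A.imp c c) :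
    A.imp a₁ (A.imp a₂ (A.comp c (A.imp c c))) = A.imp c c := by
  obtain ⟨I, X, _, h, e0, e1, e2⟩ := hA
  refine e0 (funext fun i => Subtype.ext (funext₂ fun x y => ?_))
  have h1 := fun x y => congrFun₂ (congrArg (fun a => (h a i).1) h1) x y
  have h2 := fun x y => congrFun₂ (congrArg (fun a => (h a i).1) h2) x y
  simp only [e1, e2, W, eq_iff_iff] at h1 h2 ⊢
  refine ⟨fun _ _ _ _ _ => id, fun _ x y _ _ b1 x' y' b2 b3 b4 => ?_⟩
  obtain ⟨m, hm, -⟩ := (h1 y' y').2 fun _ _ _ _ => id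
  exact ⟨m, (h2 x' m).2 (fun _ _ _ _ => id) _ _ le_rfl le_rfl
    ⟨y', (h a₁ i).2 _ _ _ _ b2 b1 b3, hm⟩ _ _ le_rfl le_rfl ⟨y', b4, hm⟩, fun _ _ _ _ => id⟩

inductive P | p | q | r | t | s
  deriving DecidableEq, Fintype

def P.le (x y : P) : Prop := x = y ∨ y = .s ∧ (x = .r ∨ x = .t)

instance : DecidableRel P.le := fun _ _ => by unfold P.le; infer_instance

instance : PartialOrder P where
  le := P.le
  le_refl := by decide
  le_trans := by decide
  le_antisymm := by decide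

instance : DecidableLE P := inferInstanceAs (DecidableRel P.le)

def Good (R : P → P → Prop) : Prop :=
  R .r = R .p ∧ R .t = R .q ∧ ∀ x ≠ .s, R x .s → ∃ y ≠ .s, R x y

theorem le_iff {x y : P} (h : x ≠ .s) : y ≤ x ↔ y = x := by revert x y; decide

theorem low {R : (W P).S} (h : Good R.1) (x w : P) (a : R.1 .s w) : R.1 x w := by
  cases x
  · exact h.1 ▸ R.2 .r _ _ _ (by decide) a le_rfl
  · exact h.2.1 ▸ R.2 .t _ _ _ (by decide) a le_rfl
  · exact R.2 _ _ _ _ (by decide) a le_rfl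
  · exact R.2 _ _ _ _ (by decide) a le_rfl
  · exact a

def B : Alg.{0} where
  S := {R : (W P).S // Good R.1}
  imp R T := ⟨(W P).imp R.1 T.1, by
    refine ⟨funext fun w => ?_, funext fun w => ?_, fun x hx h => ?_⟩
    · simp only [W, le_iff (x := .r) nofun, le_iff (x := .p) nofun, eq_iff_iff]
      exact ⟨fun h _ y e => e ▸ R.2.1 ▸ T.2.1 ▸ h _ y rfl,
        fun h _ y e => e ▸ R.2.1.symm ▸ T.2.1.symm ▸ h _ y rfl⟩
    · simp only [W, le_iff (x := .t) nofun, le_iff (x := .q) nofun, eq_iff_iff]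
      exact ⟨fun h _ y e => e ▸ R.2.2.1 ▸ T.2.2.1 ▸ h _ y rfl,
        fun h _ y e => e ▸ R.2.2.1.symm ▸ T.2.2.1.symm ▸ h _ y rfl⟩
    · by_cases h1 : R.1.1 x .s
      · obtain ⟨y, a, b⟩ := T.2.2.2 x hx (h x _ le_rfl le_rfl h1)
        exact ⟨y, a, fun _ _ c d _ => T.1.2 _ _ _ _ c b d⟩
      · refine ⟨.r, nofun, fun x' y' c d e => (h1 ?_).elim⟩
        rw [le_iff hx] at c
        exact R.1.2 _ _ _ _ c.ge e ((by decide : ∀ y, P.r ≤ y → y ≤ .s) _ d)⟩
  comp R T := ⟨(W P).comp R.1 T.1, by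
    refine ⟨funext fun w => ?_, funext fun w => ?_, fun x hx ⟨y, a, b⟩ => ?_⟩
    · simp [W, R.2.1]
    · simp [W, R.2.2.1]
    · by_cases h : y = .s
      · subst h
        obtain ⟨y, c, d⟩ := R.2.2.2 x hx a
        obtain ⟨w, e, f⟩ := T.2.2.2 y c (low T.2 _ _ b)
        exact ⟨w, e, y, d, f⟩
      · obtain ⟨w, e, f⟩ := T.2.2.2 y h b
        exact ⟨w, e, y, a, f⟩⟩

def θ : Setoid B.S where
  r R T := ∀ x ≠ P.s, ∀ w, R.1.1 x w ↔ T.1.1 x w
  iseqv := ⟨fun _ _ _ _ => .rfl, fun h x a w => (h x a w).symm,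
    fun h h' x a w => (h x a w).trans (h' x a w)⟩

theorem cmp {R R' T T' : B.S} (h : θ R R') (h' : θ T T') (x : P) (hx : x ≠ .s) (w : P) :
    (B.comp R T).1.1 x w → (B.comp R' T').1.1 x w := by
  rintro ⟨y, a, b⟩
  by_cases e : y = .s
  · subst e
    obtain ⟨y, c, d⟩ := R.2.2.2 x hx a
    exact ⟨y, (h x hx _).1 d, (h' y c _).1 (low T.2 _ _ b)⟩
  · exact ⟨y, (h x hx _).1 a, (h' y e _).1 b⟩

def A : Alg.{0} where
  S := Quotient θ
  imp := Quotient.map₂ B.imp fun R R' h T T' h' x hx w => by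
    simp only [B, W, le_iff hx]
    refine forall₂_congr fun x' y' => forall_congr' fun e => ?_
    rw [e, h x hx, h' x hx]
  comp := Quotient.map₂ B.comp fun _ _ h _ _ h' x hx w =>
    ⟨cmp h h' x hx w, cmp (θ.symm h) (θ.symm h') x hx w⟩

def el (l : List (P × P)) (h : IsWeak (fun x y => (x, y) ∈ l) ∧ Good fun x y => (x, y) ∈ l) :
    B.S := ⟨⟨_, h.1⟩, h.2⟩

theorem result : ∃ (B A : Alg.{0}) (f : B.S → A.S), Function.Surjective f ∧ IsHom B A f ∧
    InK.{0} B ∧ ¬ InK.{u} A := by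
  refine ⟨B, A, Quotient.mk θ, Quotient.mk_surjective, ⟨fun _ _ => rfl, fun _ _ => rfl⟩,
    ⟨Unit, fun _ => P, inferInstance, fun R _ => R.1, fun _ _ h => Subtype.ext (congrFun h ()),
      fun _ _ _ => rfl, fun _ _ _ => rfl⟩, fun h => ?_⟩
  open P in
  have := quasi h ⟦el [(p, p), (r, p), (q, q), (t, q)] ?_⟧
    ⟦el [(p, p), (r, p), (q, p), (t, p), (p, s), (r, s), (q, s), (t, s)] ?_⟧
    ⟦el [(p, q), (r, q), (q, q), (t, q), (p, s), (r, s), (q, s), (t, s)] ?_⟧ ⟦el [] ?_⟧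
    (Quotient.sound ?_) (Quotient.sound ?_)
  · have := (Quotient.exact this .p nofun .s).2 (fun _ _ _ _ => id) .p .s le_rfl le_rfl
      (by simp [el]) .p .s le_rfl le_rfl (by simp [el])
    obtain ⟨y, h, -⟩ := this
    cases h
  iterate 4
    simp only [IsWeak, Good, funext_iff, eq_iff_iff]
    refine ⟨?_, ?_, ?_, ?_⟩ <;> decide
  · intro x hx w
    cases x <;> simp [B, W, el] at hx ⊢
  · refine fun x hx w => ⟨fun _ _ _ _ _ => id, ?_⟩
    rintro - x y - - ⟨m, a, b⟩ x' y' - c ⟨m', d, e⟩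
    simp only [el] at a b d e ⊢
    clear hx
    revert x' m m' x y y'
    decide

end Pool.Agent.Results.MP_d80673_al.NotVariety
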